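import Pool.Agent.Helper44.LB.LP

set_option autoImplicit false

/-!
# The fourth moment of an exponential sum
-/

namespace Pool.Agent.Helper60.LB

open Finset ComplexConjugate

lemma int_exp (k : ℤ) :
    ∫ t in (0:ℝ)..1, Complex.exp (2 * Real.pi * Complex.I * k * t) =
      if k = 0 then (1 : ℂ) else 0 := by
  by_cases hk : k = 0
  · subst hk
    simp
  · rw [if_neg hk]
    have hc : (2 * Real.pi * Complex.I * k : ℂ) ≠ 0 := by
      refine mul_ne_zero Complex.two_pi_I_ne_zero ?_
      exact_mod_cast hk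
    rw [integral_exp_mul_complex hc]
    have h1 : Complex.exp (2 * Real.pi * Complex.I * k * ((1 : ℝ) : ℂ)) = 1 := by
      have h := Complex.exp_int_mul_two_pi_mul_I k
      rw [← h]
      congr 1
      push_cast
      ring
    have h0 : Complex.exp (2 * Real.pi * Complex.I * k * ((0 : ℝ) : ℂ)) = 1 := by
      rw [Complex.ofReal_zero, mul_zero, Complex.exp_zero]
    rw [h1, h0, sub_self, zero_div]

lemma norm_four (z : ℂ) : ((‖z‖ ^ 4 : ℝ) : ℂ) = (z * z) * (conj z * conj z) := by
  have h : z * conj z = ((‖z‖ ^ 2 : ℝ) : ℂ) := by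
    rw [Complex.mul_conj, Complex.normSq_eq_norm_sq]
  calc ((‖z‖ ^ 4 : ℝ) : ℂ) = ((‖z‖ ^ 2 : ℝ) : ℂ) * ((‖z‖ ^ 2 : ℝ) : ℂ) := by
        push_cast
        ring
    _ = (z * z) * (conj z * conj z) := by
        rw [← h]
        ring

lemma conj_exp (a : ℕ) (t : ℝ) :
    conj (Complex.exp (2 * Real.pi * Complex.I * a * t)) =
      Complex.exp (-(2 * Real.pi * Complex.I * a * t)) := by
  rw [← Complex.exp_conj]
  congr 1
  simp only [map_mul, Complex.conj_ofReal, Complex.conj_I, map_natCast, map_ofNat]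
  ring

lemma expand (F : Finset ℕ) (w : ℕ → ℂ) (t : ℝ) :
    ((‖∑ a ∈ F, w a * Complex.exp (2 * Real.pi * Complex.I * a * t)‖ ^ 4 : ℝ) : ℂ) =
      ∑ a ∈ F, ∑ b ∈ F, ∑ c ∈ F, ∑ d ∈ F, (w a * w b * conj (w c) * conj (w d)) *
        Complex.exp (2 * Real.pi * Complex.I * (((a : ℤ) + b - c - d : ℤ) : ℂ) * t) := by
  rw [norm_four, map_sum, Finset.sum_mul_sum, Finset.sum_mul_sum, Finset.sum_mul]
  refine Finset.sum_congr rfl fun a _ => ?_
  rw [Finset.sum_mul]
  refine Finset.sum_congr rfl fun b _ => ?_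
  rw [Finset.mul_sum]
  refine Finset.sum_congr rfl fun c _ => ?_
  rw [Finset.mul_sum]
  refine Finset.sum_congr rfl fun d _ => ?_
  rw [map_mul, map_mul, conj_exp, conj_exp]
  have h : Complex.exp (2 * Real.pi * Complex.I * (((a : ℤ) + b - c - d : ℤ) : ℂ) * t) =
      Complex.exp (2 * Real.pi * Complex.I * a * t) *
        Complex.exp (2 * Real.pi * Complex.I * b * t) *
        (Complex.exp (-(2 * Real.pi * Complex.I * c * t)) *
        Complex.exp (-(2 * Real.pi * Complex.I * d * t))) := by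
    rw [← Complex.exp_add, ← Complex.exp_add, ← Complex.exp_add]
    congr 1
    push_cast
    ring
  rw [h]
  ring

lemma int_sum (F : Finset ℕ) (f : ℕ → ℝ → ℂ) (hf : ∀ i, Continuous (f i)) :
    ∫ t in (0:ℝ)..1, ∑ i ∈ F, f i t = ∑ i ∈ F, ∫ t in (0:ℝ)..1, f i t :=
  intervalIntegral.integral_finsetSum fun i _ => (hf i).intervalIntegrable 0 1

/-- the fourth moment -/
theorem four_eq (F : Finset ℕ) (w : ℕ → ℂ) :
    ((∫ t in (0:ℝ)..1, ‖∑ a ∈ F, w a * Complex.exp (2 * Real.pi * Complex.I * a * t)‖ ^ 4 : ℝ) :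
      ℂ) = ∑ a ∈ F, ∑ b ∈ F, ∑ c ∈ F, ∑ d ∈ F,
        if a + b = c + d then w a * w b * conj (w c) * conj (w d) else 0 := by
  rw [← intervalIntegral.integral_ofReal]
  simp_rw [expand]
  rw [int_sum F _ fun a => by fun_prop]
  refine Finset.sum_congr rfl fun a _ => ?_
  rw [int_sum F _ fun b => by fun_prop]
  refine Finset.sum_congr rfl fun b _ => ?_
  rw [int_sum F _ fun c => by fun_prop]
  refine Finset.sum_congr rfl fun c _ => ?_
  rw [int_sum F _ fun d => by fun_prop]
  refine Finset.sum_congr rfl fun d _ => ?_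
  rw [intervalIntegral.integral_const_mul, int_exp]
  by_cases h : a + b = c + d
  · rw [if_pos h, if_pos (by omega), mul_one]
  · rw [if_neg h, if_neg (by omega), mul_zero]

theorem four (F : Finset ℕ) (w : ℕ → ℂ) :
    ∫ t in (0:ℝ)..1, ‖∑ a ∈ F, w a * Complex.exp (2 * Real.pi * Complex.I * a * t)‖ ^ 4 ≤
      Pool.Agent.Helper44.LB.En F (fun a => ‖w a‖) := by
  have h := congrArg Complex.re (four_eq F w)
  rw [Complex.ofReal_re] at h
  rw [h, Pool.Agent.Helper44.LB.En_eq]
  simp only [Complex.re_sum]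
  refine Finset.sum_le_sum fun a _ => Finset.sum_le_sum fun b _ =>
    Finset.sum_le_sum fun c _ => Finset.sum_le_sum fun d _ => ?_
  by_cases h : a + b = c + d
  · rw [if_pos h, if_pos h]
    refine (Complex.re_le_norm _).trans (le_of_eq ?_)
    rw [norm_mul, norm_mul, norm_mul, Complex.norm_conj, Complex.norm_conj]
  · rw [if_neg h, if_neg h, Complex.zero_re]

/-- for real coefficients the fourth moment is the energy -/
theorem four_real (F : Finset ℕ) (w : ℕ → ℝ) :
    ∫ t in (0:ℝ)..1,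
      ‖∑ a ∈ F, (w a : ℂ) * Complex.exp (2 * Real.pi * Complex.I * a * t)‖ ^ 4 =
      Pool.Agent.Helper44.LB.En F w := by
  have h := four_eq F (fun a => (w a : ℂ))
  rw [Pool.Agent.Helper44.LB.En_eq]
  apply Complex.ofReal_injective
  rw [h]
  push_cast
  refine Finset.sum_congr rfl fun a _ => Finset.sum_congr rfl fun b _ =>
    Finset.sum_congr rfl fun c _ => Finset.sum_congr rfl fun d _ => ?_
  by_cases h : a + b = c + d
  · rw [if_pos h, if_pos h, Complex.conj_ofReal, Complex.conj_ofReal]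
    push_cast
    ring
  · rw [if_neg h, if_neg h, Complex.ofReal_zero]

end Pool.Agent.Helper60.LB
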